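import Pool.Agent.helper64.LE.Base

/-! # Random walk integrals on the torus (module FD) -/

set_option autoImplicit false

open Finset Classical

namespace Pool.Agent.helper66.LE

/-- one coordinate: `1 - cos (2 π a / L) ≥ 8 |a|² / L²` -/
theorem FD_cos {L : ℕ} [NeZero L] (a : ZMod L) :
    8 * ((a.valMinAbs.natAbs : ℝ)) ^ 2 / (L : ℝ) ^ 2 ≤ 1 - (ZMod.stdAddChar a : ℂ).re := by
  have hL : (0 : ℝ) < L := Nat.cast_pos.2 (Nat.pos_of_ne_zero (NeZero.ne L))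
  have h1 : (ZMod.stdAddChar a : ℂ) =
      Complex.exp (2 * Real.pi * Complex.I * (a.valMinAbs : ℤ) / L) := by
    conv_lhs => rw [← ZMod.coe_valMinAbs a]
    rw [ZMod.stdAddChar_coe]
  have h2 : (ZMod.stdAddChar a : ℂ).re = Real.cos (2 * (Real.pi * (a.valMinAbs : ℝ) / L)) := by
    rw [h1, show (2 * (Real.pi : ℂ) * Complex.I * ((a.valMinAbs : ℤ) : ℂ) / L) =
      ((2 * (Real.pi * (a.valMinAbs : ℝ) / L) : ℝ) : ℂ) * Complex.I by push_cast; ring]
    rw [Complex.exp_ofReal_mul_I_re]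
  rw [h2, Real.cos_two_mul]
  set x := Real.pi * (a.valMinAbs : ℝ) / L with hx
  have h3 : 1 - (2 * Real.cos x ^ 2 - 1) = 2 * Real.sin x ^ 2 := by
    have := Real.sin_sq_add_cos_sq x
    linarith
  rw [h3]
  have hab : |(a.valMinAbs : ℝ)| = (a.valMinAbs.natAbs : ℝ) := by
    rw [Nat.cast_natAbs, Int.cast_abs]
  have hle : (a.valMinAbs.natAbs : ℝ) ≤ L / 2 := by
    have h := ZMod.natAbs_valMinAbs_le a
    have h' : ((a.valMinAbs.natAbs : ℕ) : ℝ) ≤ ((L / 2 : ℕ) : ℝ) := by exact_mod_cast h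
    exact h'.trans Nat.cast_div_le
  have hxabs : |x| = Real.pi * (a.valMinAbs.natAbs : ℝ) / L := by
    rw [hx, abs_div, abs_mul, abs_of_pos Real.pi_pos, hab, abs_of_pos hL]
  have hx2 : |x| ≤ Real.pi / 2 := by
    rw [hxabs, div_le_iff₀ hL]
    nlinarith [Real.pi_pos]
  have h4 := Real.mul_abs_le_abs_sin hx2
  have h5 : (2 / Real.pi * |x|) ^ 2 ≤ Real.sin x ^ 2 := by
    rw [← sq_abs (Real.sin x)]
    exact pow_le_pow_left₀ (by positivity) h4 2
  have h6 : 2 / Real.pi * |x| = 2 * (a.valMinAbs.natAbs : ℝ) / L := by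
    rw [hxabs]
    have := Real.pi_ne_zero
    field_simp
  rw [h6] at h5
  calc 8 * ((a.valMinAbs.natAbs : ℝ)) ^ 2 / (L : ℝ) ^ 2
      = 2 * (2 * (a.valMinAbs.natAbs : ℝ) / L) ^ 2 := by ring
    _ ≤ _ := by linarith

/-- `∑_{j ≤ n} 1 / √j ≤ 2 √n` -/
theorem FD_sqrt (n : ℕ) : ∑ j ∈ Finset.Icc 1 n, (√(j : ℝ))⁻¹ ≤ 2 * √(n : ℝ) := by
  induction n with
  | zero => simp
  | succ n ih =>
    rw [Finset.sum_Icc_succ_top (by omega)]
    have hn : (0 : ℝ) < ((n + 1 : ℕ) : ℝ) := by positivity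
    have h1 : 0 < √((n + 1 : ℕ) : ℝ) := Real.sqrt_pos.2 hn
    have h2 : √(n : ℝ) ≤ √((n + 1 : ℕ) : ℝ) := Real.sqrt_le_sqrt (by push_cast; linarith)
    have h3 : √((n + 1 : ℕ) : ℝ) * √((n + 1 : ℕ) : ℝ) = n + 1 := by
      rw [Real.mul_self_sqrt hn.le]; push_cast; ring
    have h4 : √(n : ℝ) * √(n : ℝ) = n := Real.mul_self_sqrt (Nat.cast_nonneg n)
    have h5 : 0 ≤ √(n : ℝ) := Real.sqrt_nonneg _
    have h6 : (√((n + 1 : ℕ) : ℝ))⁻¹ ≤ 2 * √((n + 1 : ℕ) : ℝ) - 2 * √(n : ℝ) := by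
      rw [inv_le_iff_one_le_mul₀ h1]
      nlinarith
    linarith

/-- the sum of `(L / (2 |a|))^(1/2)` over one non zero coordinate -/
theorem FD_sum {L : ℕ} [NeZero L] :
    ∑ a ∈ (univ : Finset (ZMod L)).filter (fun a => a ≠ 0),
      √((L : ℝ) / 2) * (√(a.valMinAbs.natAbs : ℝ))⁻¹ ≤ 2 * L := by
  have hmap : ∀ a ∈ (univ : Finset (ZMod L)).filter (fun a => a ≠ 0),
      a.valMinAbs.natAbs ∈ Finset.Icc 1 (L / 2) := by
    intro a ha
    rw [Finset.mem_Icc]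
    refine ⟨?_, ZMod.natAbs_valMinAbs_le a⟩
    rw [Nat.one_le_iff_ne_zero, Ne, Int.natAbs_eq_zero, ZMod.valMinAbs_eq_zero]
    exact (Finset.mem_filter.1 ha).2
  rw [← Finset.mul_sum, ← Finset.sum_fiberwise_of_maps_to hmap]
  have h1 : ∑ j ∈ Finset.Icc 1 (L / 2), ∑ a ∈ ((univ : Finset (ZMod L)).filter
      (fun a => a ≠ 0)).filter (fun a => a.valMinAbs.natAbs = j),
        (√(a.valMinAbs.natAbs : ℝ))⁻¹ ≤ ∑ j ∈ Finset.Icc 1 (L / 2), 2 * (√(j : ℝ))⁻¹ := by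
    refine Finset.sum_le_sum fun j _ => ?_
    have h2 : ∑ a ∈ ((univ : Finset (ZMod L)).filter
      (fun a => a ≠ 0)).filter (fun a => a.valMinAbs.natAbs = j),
        (√(a.valMinAbs.natAbs : ℝ))⁻¹ = ∑ a ∈ ((univ : Finset (ZMod L)).filter
      (fun a => a ≠ 0)).filter (fun a => a.valMinAbs.natAbs = j), (√(j : ℝ))⁻¹ :=
      Finset.sum_congr rfl fun a ha => by rw [(Finset.mem_filter.1 ha).2]
    rw [h2, Finset.sum_const, nsmul_eq_mul]
    refine mul_le_mul_of_nonneg_right ?_ (by positivity)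
    have hsub : (((univ : Finset (ZMod L)).filter
      (fun a => a ≠ 0)).filter (fun a => a.valMinAbs.natAbs = j)) ⊆
        {((j : ℕ) : ZMod L), -((j : ℕ) : ZMod L)} := by
      intro a ha
      have ha2 := (Finset.mem_filter.1 ha).2
      rw [Finset.mem_insert, Finset.mem_singleton]
      rcases Int.natAbs_eq a.valMinAbs with h | h
      · left
        rw [← ZMod.coe_valMinAbs a, h, ha2]
        simp
      · right
        rw [← ZMod.coe_valMinAbs a, h, ha2]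
        simp
    have := (Finset.card_le_card hsub).trans Finset.card_le_two
    exact_mod_cast this
  have h3 : ∑ j ∈ Finset.Icc 1 (L / 2), 2 * (√(j : ℝ))⁻¹ ≤ 4 * √((L : ℝ) / 2) := by
    rw [← Finset.mul_sum]
    have h4 := FD_sqrt (L / 2)
    have h5 : √((L / 2 : ℕ) : ℝ) ≤ √((L : ℝ) / 2) := Real.sqrt_le_sqrt Nat.cast_div_le
    linarith
  have h6 : √((L : ℝ) / 2) * √((L : ℝ) / 2) = L / 2 := Real.mul_self_sqrt (by positivity)
  calc √((L : ℝ) / 2) * _ ≤ √((L : ℝ) / 2) * (4 * √((L : ℝ) / 2)) :=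
        mul_le_mul_of_nonneg_left (h1.trans h3) (Real.sqrt_nonneg _)
    _ = 4 * (√((L : ℝ) / 2) * √((L : ℝ) / 2)) := by ring
    _ = 2 * L := by rw [h6]; ring

/-- bounded fourth roots of the reciprocals, non zero coordinate -/
theorem FD_u {L : ℕ} [NeZero L] (a : ZMod L) (ha : a ≠ 0) {η : ℝ} (hη : 0 ≤ η) :
    √√(1 - (ZMod.stdAddChar a : ℂ).re + η)⁻¹ ≤
      √((L : ℝ) / 2) * (√(a.valMinAbs.natAbs : ℝ))⁻¹ := by
  have hL : (0 : ℝ) < L := Nat.cast_pos.2 (Nat.pos_of_ne_zero (NeZero.ne L))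
  have ha1 : (1 : ℝ) ≤ (a.valMinAbs.natAbs : ℝ) := by
    have : 1 ≤ a.valMinAbs.natAbs := by
      rw [Nat.one_le_iff_ne_zero, Ne, Int.natAbs_eq_zero, ZMod.valMinAbs_eq_zero]
      exact ha
    exact_mod_cast this
  set n : ℝ := (a.valMinAbs.natAbs : ℝ) with hn
  have hn0 : 0 < n := by linarith
  have h1 := FD_cos a
  rw [← hn] at h1
  have h2 : 0 < 8 * n ^ 2 / (L : ℝ) ^ 2 := by positivity
  have h3 : (1 - (ZMod.stdAddChar a : ℂ).re + η)⁻¹ ≤ (L / (2 * n)) ^ 2 := by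
    calc (1 - (ZMod.stdAddChar a : ℂ).re + η)⁻¹ ≤ (8 * n ^ 2 / (L : ℝ) ^ 2)⁻¹ :=
          inv_anti₀ h2 (by linarith)
      _ = (L / (2 * n)) ^ 2 / 2 := by field_simp; ring
      _ ≤ (L / (2 * n)) ^ 2 := by
          have : 0 ≤ (L / (2 * n)) ^ 2 := by positivity
          linarith
  have h4 : √(1 - (ZMod.stdAddChar a : ℂ).re + η)⁻¹ ≤ L / (2 * n) := by
    rw [← Real.sqrt_sq (show 0 ≤ L / (2 * n) by positivity)]
    exact Real.sqrt_le_sqrt h3
  calc √√(1 - (ZMod.stdAddChar a : ℂ).re + η)⁻¹ ≤ √(L / (2 * n)) := Real.sqrt_le_sqrt h4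
    _ = √((L : ℝ) / 2 / n) := by congr 1; field_simp
    _ = √((L : ℝ) / 2) * (√n)⁻¹ := by
        rw [Real.sqrt_div (by positivity)]
        rfl

/-- zero coordinate -/
theorem FD_u0 {L : ℕ} [NeZero L] {d : ℕ} (hd : 1 ≤ d) :
    √√(1 - (ZMod.stdAddChar (0 : ZMod L) : ℂ).re + 8 / ((d : ℝ) * (L : ℝ) ^ 2))⁻¹ ≤ √((d : ℝ) * L) := by
  have hL : (0 : ℝ) < L := Nat.cast_pos.2 (Nat.pos_of_ne_zero (NeZero.ne L))
  have hd' : (1 : ℝ) ≤ d := by exact_mod_cast hd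
  have h0 : (ZMod.stdAddChar (0 : ZMod L) : ℂ).re = 1 := by simp
  rw [h0]
  have h1 : (1 - 1 + 8 / ((d : ℝ) * (L : ℝ) ^ 2))⁻¹ ≤ ((d : ℝ) * L) ^ 2 := by
    rw [show (1 - 1 + 8 / ((d : ℝ) * (L : ℝ) ^ 2))⁻¹ = (d : ℝ) * (L : ℝ) ^ 2 / 8 by
      rw [sub_self, zero_add, inv_div]]
    have : (d : ℝ) * (L : ℝ) ^ 2 / 8 ≤ (d : ℝ) * (L : ℝ) ^ 2 := by
      have : 0 ≤ (d : ℝ) * (L : ℝ) ^ 2 := by positivity
      linarith
    refine this.trans ?_
    rw [mul_pow]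
    refine mul_le_mul_of_nonneg_right ?_ (by positivity)
    nlinarith
  refine Real.sqrt_le_sqrt ?_
  rw [← Real.sqrt_sq (show 0 ≤ (d : ℝ) * L by positivity)]
  exact Real.sqrt_le_sqrt h1

/-- one coordinate -/
theorem FD_coord {L : ℕ} [NeZero L] {d : ℕ} (hd : 1 ≤ d) (hL : 16 * d ≤ L) {s : ℝ}
    (hs0 : 0 ≤ s) (hs : s ≤ 1 / 4) :
    ∑ a : ZMod L, ((1 - (ZMod.stdAddChar a : ℂ).re + 8 / (d * (L : ℝ) ^ 2))⁻¹) ^ s ≤
      L * (1 + 5 * s) := by
  have hL0 : (0 : ℝ) < L := Nat.cast_pos.2 (Nat.pos_of_ne_zero (NeZero.ne L))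
  have hd' : (1 : ℝ) ≤ d := by exact_mod_cast hd
  have hL' : 16 * (d : ℝ) ≤ L := by exact_mod_cast hL
  set η : ℝ := 8 / (d * (L : ℝ) ^ 2) with hη
  have hη0 : 0 < η := by positivity
  have hy : ∀ a : ZMod L, 0 ≤ 1 - (ZMod.stdAddChar a : ℂ).re := fun a =>
    le_trans (by positivity) (FD_cos a)
  have h1 : ∀ a : ZMod L, ((1 - (ZMod.stdAddChar a : ℂ).re + η)⁻¹) ^ s ≤
      1 - 4 * s + 4 * s * √√(1 - (ZMod.stdAddChar a : ℂ).re + η)⁻¹ := by
    intro a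
    set u := (1 - (ZMod.stdAddChar a : ℂ).re + η)⁻¹ with hu
    have hu0 : 0 ≤ u := inv_nonneg.2 (by linarith [hy a])
    set v := √√u with hv
    have hv0 : 0 ≤ v := Real.sqrt_nonneg _
    have huv : u = v ^ 4 := by
      rw [show v ^ 4 = (v ^ 2) ^ 2 by ring, hv, Real.sq_sqrt (Real.sqrt_nonneg _),
        Real.sq_sqrt hu0]
    have h2 : u ^ s = (1 + (v - 1)) ^ (4 * s) := by
      rw [huv, show 1 + (v - 1) = v by ring, Real.rpow_mul hv0]
      norm_num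
    rw [h2]
    refine (rpow_one_add_le_one_add_mul_self (by linarith) (by linarith)
      (by linarith)).trans ?_
    linarith
  have h3 : ∑ a : ZMod L, √√(1 - (ZMod.stdAddChar a : ℂ).re + η)⁻¹ ≤ 2 * L + √((d : ℝ) * L) := by
    rw [← Finset.sum_filter_add_sum_filter_not univ (fun a : ZMod L => a ≠ 0)]
    refine add_le_add ?_ ?_
    · refine le_trans (Finset.sum_le_sum fun a ha => ?_) FD_sum
      exact FD_u a (Finset.mem_filter.1 ha).2 hη0.le
    · have : (univ : Finset (ZMod L)).filter (fun a => ¬ a ≠ 0) = {0} := by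
        ext a; simp
      rw [this, Finset.sum_singleton]
      exact FD_u0 hd
  have h4 : √((d : ℝ) * L) ≤ L / 4 := by
    rw [Real.sqrt_le_left (by positivity)]
    nlinarith
  calc ∑ a : ZMod L, ((1 - (ZMod.stdAddChar a : ℂ).re + η)⁻¹) ^ s
      ≤ ∑ a : ZMod L, (1 - 4 * s + 4 * s * √√(1 - (ZMod.stdAddChar a : ℂ).re + η)⁻¹) :=
        Finset.sum_le_sum fun a _ => h1 a
    _ = (L : ℝ) * (1 - 4 * s) +
        4 * s * ∑ a : ZMod L, √√(1 - (ZMod.stdAddChar a : ℂ).re + η)⁻¹ := by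
        rw [Finset.sum_add_distrib, ← Finset.mul_sum, Finset.sum_const, Finset.card_univ,
          ZMod.card, nsmul_eq_mul]
    _ ≤ (L : ℝ) * (1 - 4 * s) + 4 * s * (2 * L + L / 4) := by
        have : ∑ a : ZMod L, √√(1 - (ZMod.stdAddChar a : ℂ).re + η)⁻¹ ≤ 2 * L + L / 4 := by
          linarith
        have := mul_le_mul_of_nonneg_left this (show 0 ≤ 4 * s by linarith)
        linarith
    _ = L * (1 + 5 * s) := by ring

/-- the main pointwise estimate -/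
theorem FD_point {L d : ℕ} [NeZero L] (hd : 1 ≤ d) (m : ℕ) (k : Tor d L) (hk : k ≠ 0) :
    ((1 - Dh k) ^ m)⁻¹ ≤ 2 ^ m * ∏ j,
      ((1 - (ZMod.stdAddChar (k j) : ℂ).re + 8 / (d * (L : ℝ) ^ 2))⁻¹) ^ ((m : ℝ) / d) := by
  have hL0 : (0 : ℝ) < L := Nat.cast_pos.2 (Nat.pos_of_ne_zero (NeZero.ne L))
  have hd' : (1 : ℝ) ≤ d := by exact_mod_cast hd
  have hd0 : (0 : ℝ) < d := by linarith
  set η : ℝ := 8 / (d * (L : ℝ) ^ 2) with hη
  have hη0 : 0 < η := by positivity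
  have hy : ∀ a : ZMod L, 0 ≤ 1 - (ZMod.stdAddChar a : ℂ).re := fun a =>
    le_trans (by positivity) (FD_cos a)
  set z : Fin d → ℝ := fun j => 1 - (ZMod.stdAddChar (k j) : ℂ).re + η with hz
  have hz0 : ∀ j, 0 < z j := fun j => by
    have := hy (k j)
    show 0 < 1 - (ZMod.stdAddChar (k j) : ℂ).re + η
    linarith
  have h1 : 1 - Dh k = (∑ j, (1 - (ZMod.stdAddChar (k j) : ℂ).re)) / d := by
    unfold Dh
    rw [Finset.sum_sub_distrib, Finset.sum_const, Finset.card_univ, Fintype.card_fin,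
      nsmul_eq_mul, mul_one, sub_div, div_self hd0.ne']
  obtain ⟨i, hi⟩ : ∃ i, k i ≠ 0 := by
    by_contra hcon
    push Not at hcon
    exact hk (funext hcon)
  have h2 : 8 / (L : ℝ) ^ 2 ≤ ∑ j, (1 - (ZMod.stdAddChar (k j) : ℂ).re) := by
    have h3 : 8 / (L : ℝ) ^ 2 ≤ 1 - (ZMod.stdAddChar (k i) : ℂ).re := by
      refine le_trans ?_ (FD_cos (k i))
      have ha1 : (1 : ℝ) ≤ ((k i).valMinAbs.natAbs : ℝ) := by
        have : 1 ≤ (k i).valMinAbs.natAbs := by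
          rw [Nat.one_le_iff_ne_zero, Ne, Int.natAbs_eq_zero, ZMod.valMinAbs_eq_zero]
          exact hi
        exact_mod_cast this
      refine div_le_div_of_nonneg_right ?_ (by positivity)
      nlinarith
    exact h3.trans (Finset.single_le_sum (f := fun j => 1 - (ZMod.stdAddChar (k j) : ℂ).re)
      (fun j _ => hy (k j)) (Finset.mem_univ i))
  have h3 : ∑ j, (1 / (d : ℝ)) * z j ≤ 2 * (1 - Dh k) := by
    rw [← Finset.mul_sum, h1]
    have : ∑ j, z j = ∑ j, (1 - (ZMod.stdAddChar (k j) : ℂ).re) + d * η := by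
      simp only [hz]
      rw [Finset.sum_add_distrib, Finset.sum_const, Finset.card_univ, Fintype.card_fin,
        nsmul_eq_mul]
    rw [this]
    have h4 : d * η = 8 / (L : ℝ) ^ 2 := by
      rw [hη]; field_simp
    rw [h4, one_div, inv_mul_eq_div, ← mul_div_assoc]
    refine div_le_div_of_nonneg_right ?_ hd0.le
    linarith
  have h4 : ∏ j, z j ^ (1 / (d : ℝ)) ≤ 2 * (1 - Dh k) := by
    refine le_trans ?_ h3
    refine Real.geom_mean_le_arith_mean_weighted univ (fun _ => 1 / (d : ℝ)) z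
      (fun _ _ => by positivity) ?_ (fun j _ => (hz0 j).le)
    rw [Finset.sum_const, Finset.card_univ, Fintype.card_fin, nsmul_eq_mul]
    field_simp
  have hP : 0 < ∏ j, z j ^ (1 / (d : ℝ)) :=
    Finset.prod_pos fun j _ => Real.rpow_pos_of_pos (hz0 j) _
  have h5 : 0 < 1 - Dh k := by linarith
  have h6 : (1 - Dh k)⁻¹ ≤ 2 * ∏ j, (z j)⁻¹ ^ (1 / (d : ℝ)) := by
    have h7 : ∏ j, (z j)⁻¹ ^ (1 / (d : ℝ)) = (∏ j, z j ^ (1 / (d : ℝ)))⁻¹ := by
      rw [← Finset.prod_inv_distrib]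
      exact Finset.prod_congr rfl fun j _ => Real.inv_rpow (hz0 j).le _
    rw [h7, inv_le_comm₀ h5 (by positivity), mul_inv, inv_inv]
    linarith
  calc ((1 - Dh k) ^ m)⁻¹ = ((1 - Dh k)⁻¹) ^ m := by rw [inv_pow]
    _ ≤ (2 * ∏ j, (z j)⁻¹ ^ (1 / (d : ℝ))) ^ m := pow_le_pow_left₀ (by positivity) h6 m
    _ = 2 ^ m * ∏ j, ((z j)⁻¹) ^ ((m : ℝ) / d) := by
        rw [mul_pow, ← Finset.prod_pow]
        congr 1
        refine Finset.prod_congr rfl fun j _ => ?_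
        rw [← Real.rpow_natCast, ← Real.rpow_mul (inv_nonneg.2 (hz0 j).le)]
        congr 1
        ring

/-- FD: random walk integrals -/
theorem sum_inv (m d : ℕ) (hm : 1 ≤ m) (hd : 4 * m ≤ d) : ∃ L₀ : ℕ, ∀ L ≥ L₀, ∀ [NeZero L],
    ∑ k : Tor d L, (if k = 0 then 0 else ((1 - Dh k) ^ m)⁻¹) ≤ 1000 ^ m * (L : ℝ) ^ d := by
  refine ⟨16 * d, fun L hL _ => ?_⟩
  have hd1 : 1 ≤ d := by omega
  have hL0 : (0 : ℝ) < L := Nat.cast_pos.2 (Nat.pos_of_ne_zero (NeZero.ne L))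
  have hd' : (1 : ℝ) ≤ d := by exact_mod_cast hd1
  have hd0 : (0 : ℝ) < d := by linarith
  have hmd : 4 * (m : ℝ) ≤ d := by exact_mod_cast hd
  have hy : ∀ a : ZMod L, 0 ≤ 1 - (ZMod.stdAddChar a : ℂ).re := fun a =>
    le_trans (by positivity) (FD_cos a)
  set g : ZMod L → ℝ := fun a =>
    ((1 - (ZMod.stdAddChar a : ℂ).re + 8 / (d * (L : ℝ) ^ 2))⁻¹) ^ ((m : ℝ) / d) with hg
  have hg0 : ∀ a, 0 ≤ g a := fun a => Real.rpow_nonneg (inv_nonneg.2 (by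
    have := hy a
    positivity)) _
  have h1 : ∑ k : Tor d L, (if k = 0 then 0 else ((1 - Dh k) ^ m)⁻¹) ≤
      ∑ k : Tor d L, 2 ^ m * ∏ j, g (k j) := by
    refine Finset.sum_le_sum fun k _ => ?_
    by_cases hk : k = 0
    · rw [if_pos hk]
      exact mul_nonneg (by positivity) (Finset.prod_nonneg fun j _ => hg0 _)
    · rw [if_neg hk]
      exact FD_point hd1 m k hk
  have h2 : ∑ k : Tor d L, 2 ^ m * ∏ j, g (k j) = 2 ^ m * (∑ a, g a) ^ d := by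
    rw [← Finset.mul_sum]
    congr 1
    have h3 := Finset.prod_univ_sum (fun _ : Fin d => (univ : Finset (ZMod L)))
      (fun _ a => g a)
    rw [Fintype.piFinset_univ] at h3
    rw [← h3, Finset.prod_const, Finset.card_univ, Fintype.card_fin]
  have h3 : ∑ a, g a ≤ L * (1 + 5 * ((m : ℝ) / d)) :=
    FD_coord hd1 hL (by positivity) (by rw [div_le_iff₀ hd0]; linarith)
  have h4 : (∑ a, g a) ^ d ≤ (L : ℝ) ^ d * 500 ^ m := by
    calc (∑ a, g a) ^ d ≤ (L * (1 + 5 * ((m : ℝ) / d))) ^ d :=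
          pow_le_pow_left₀ (Finset.sum_nonneg fun a _ => hg0 a) h3 d
      _ = (L : ℝ) ^ d * (1 + 5 * ((m : ℝ) / d)) ^ d := mul_pow _ _ _
      _ ≤ (L : ℝ) ^ d * 500 ^ m := by
          refine mul_le_mul_of_nonneg_left ?_ (by positivity)
          have h5 : 1 + 5 * ((m : ℝ) / d) ≤ Real.exp (5 * ((m : ℝ) / d)) := by
            have := Real.add_one_le_exp (5 * ((m : ℝ) / d))
            linarith
          calc (1 + 5 * ((m : ℝ) / d)) ^ d ≤ (Real.exp (5 * ((m : ℝ) / d))) ^ d :=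
                pow_le_pow_left₀ (by positivity) h5 d
            _ = (Real.exp 1 ^ 5) ^ m := by
                rw [← Real.exp_nat_mul, ← pow_mul, ← Real.exp_nat_mul]
                congr 1
                push_cast
                field_simp
            _ ≤ 500 ^ m := by
                refine pow_le_pow_left₀ (by positivity) ?_ m
                calc Real.exp 1 ^ 5 ≤ (2.7182818286 : ℝ) ^ 5 :=
                      pow_le_pow_left₀ (Real.exp_pos 1).le Real.exp_one_lt_d9.le 5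
                  _ ≤ 500 := by norm_num
  calc _ ≤ _ := h1
    _ = 2 ^ m * (∑ a, g a) ^ d := h2
    _ ≤ 2 ^ m * ((L : ℝ) ^ d * 500 ^ m) := mul_le_mul_of_nonneg_left h4 (by positivity)
    _ = 1000 ^ m * (L : ℝ) ^ d := by
        rw [show (1000 : ℝ) = 2 * 500 by norm_num, mul_pow]; ring

end Pool.Agent.helper66.LE
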