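import Pool.Agent.helper65.LE.TA
import Pool.Agent.helper65.LE.FG
import Pool.Agent.helper64.LE.FQ
import Pool.Agent.helper33.LE.FA
import Pool.Agent.helper47.LE.FF

/-! # Consequences of the lace expansion in Fourier space (module FH) -/

set_option autoImplicit false

open Finset Classical

namespace Pool.Agent.helper66.LE

section F

variable {d L : ℕ} [NeZero L] {q : ℝ}

theorem FH_ee_add (k x y : Tor d L) : ee k (x + y) = ee k x * ee k y := by
  unfold ee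
  rw [← AddChar.map_add_eq_mul]
  congr 1
  simp [mul_add, Finset.sum_add_distrib]

theorem FH_ee_neg (k x : Tor d L) : ee k (-x) = (starRingEnd ℂ) (ee k x) := by
  unfold ee
  rw [← AddChar.map_neg_eq_conj]
  congr 1
  simp

theorem FH_cs_neg (k x : Tor d L) : cs k (-x) = cs k x := by
  unfold cs
  rw [FH_ee_neg]
  simp

theorem FH_im_neg (k x : Tor d L) : (ee k (-x)).im = -(ee k x).im := by
  rw [FH_ee_neg]
  simp

theorem FH_abs_cs (k x : Tor d L) : |cs k x| ≤ 1 := by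
  unfold cs
  refine (Complex.abs_re_le_norm _).trans ?_
  unfold ee
  rw [AddChar.norm_apply]

theorem FH_cs_zero_left (x : Tor d L) : cs (0 : Tor d L) x = 1 := by
  unfold cs ee
  simp

theorem FH_cs_zero_right (k : Tor d L) : cs k (0 : Tor d L) = 1 := by
  unfold cs ee
  simp

theorem FH_odd (f : Tor d L → ℝ) (hf : ∀ x, f (-x) = f x) (k : Tor d L) :
    ∑ x, f x * (ee k x).im = 0 := by
  have h1 : ∑ x, f x * (ee k x).im = ∑ x, f (-x) * (ee k (-x)).im :=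
    (Fintype.sum_equiv (Equiv.neg (Tor d L)) _ _ fun x => rfl).symm
  have h2 : ∑ x, f (-x) * (ee k (-x)).im = -∑ x, f x * (ee k x).im := by
    rw [← Finset.sum_neg_distrib]
    refine Finset.sum_congr rfl fun x _ => ?_
    rw [hf, FH_im_neg]
    ring
  linarith

theorem FH_conv (f g : Tor d L → ℝ) (h : (∀ x, f (-x) = f x) ∨ (∀ x, g (-x) = g x))
    (k : Tor d L) : fh (conv f g) k = fh f k * fh g k := by
  unfold fh conv
  have h1 : ∀ x, (∑ y, f y * g (x - y)) * cs k x = ∑ y, f y * g (x - y) * cs k x := fun x =>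
    Finset.sum_mul _ _ _
  simp_rw [h1]
  rw [Finset.sum_comm]
  have h2 : ∀ y, ∑ x, f y * g (x - y) * cs k x = ∑ z, f y * g z * cs k (y + z) := by
    intro y
    refine Fintype.sum_equiv (Equiv.subRight y) _ _ fun x => ?_
    simp [Equiv.subRight]
  simp_rw [h2]
  have h3 : ∀ y z, cs k (y + z) = cs k y * cs k z - (ee k y).im * (ee k z).im := by
    intro y z
    unfold cs
    rw [FH_ee_add, Complex.mul_re]
  have h4 : ∑ y, ∑ z, f y * g z * cs k (y + z) =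
      (∑ y, f y * cs k y) * (∑ z, g z * cs k z) -
      (∑ y, f y * (ee k y).im) * (∑ z, g z * (ee k z).im) := by
    rw [Finset.sum_mul_sum, Finset.sum_mul_sum, ← Finset.sum_sub_distrib]
    refine Finset.sum_congr rfl fun y _ => ?_
    rw [← Finset.sum_sub_distrib]
    refine Finset.sum_congr rfl fun z _ => ?_
    rw [h3]
    ring
  rw [h4]
  have h5 : (∑ y, f y * (ee k y).im) * (∑ z, g z * (ee k z).im) = 0 := by
    rcases h with h | h
    · rw [FH_odd f h k, zero_mul]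
    · rw [FH_odd g h k, mul_zero]
  rw [h5, sub_zero]

omit [NeZero L] in
/-- symmetric functions are even -/
theorem FH_even (f : Tor d L → ℝ) (hf : SymF f) (x : Tor d L) : f (-x) = f x := by
  have key : ∀ s : Finset (Fin d), f (fun j => if j ∈ s then -x j else x j) = f x := by
    intro s
    induction s using Finset.induction_on with
    | empty => simp
    | insert i s hi ih =>
      rw [← ih, ← hf.1 i (fun j => if j ∈ s then -x j else x j)]
      congr 1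
      funext j
      unfold flp
      by_cases hj : j = i
      · subst hj
        simp [hi]
      · simp [Finset.mem_insert, hj]
  have h1 := key univ
  simp only [Finset.mem_univ, if_true] at h1
  exact h1

theorem FH_fh_near (N : Tor d L → ℝ) (h2 : ∑ x, |N x - (if x = 0 then 1 else 0)| ≤ 1 / 100)
    (k : Tor d L) : |fh N k - 1| ≤ 1 / 100 := by
  have h3 : fh N k - 1 = ∑ x, (N x - (if x = 0 then 1 else 0)) * cs k x := by
    simp_rw [sub_mul]
    rw [Finset.sum_sub_distrib]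
    unfold fh
    congr 1
    simp [FH_cs_zero_right]
  rw [h3]
  refine (Finset.abs_sum_le_sum_abs _ _).trans (le_trans (Finset.sum_le_sum fun x _ => ?_) h2)
  rw [abs_mul]
  exact mul_le_of_le_one_right (abs_nonneg _) (FH_abs_cs k x)

theorem FH_fh_diff (N : Tor d L → ℝ) (hs : SymF N) (hd : 1 ≤ d) (k : Tor d L) :
    |fh N 0 - fh N k| ≤ (1 - Dh k) * mom N := by
  refine le_trans ?_ (sym_weight N hs hd k)
  have h1 : fh N 0 - fh N k = ∑ x, N x * (1 - cs k x) := by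
    unfold fh
    rw [← Finset.sum_sub_distrib]
    refine Finset.sum_congr rfl fun x _ => ?_
    rw [FH_cs_zero_left]
    ring
  rw [h1]
  refine (Finset.abs_sum_le_sum_abs _ _).trans (Finset.sum_le_sum fun x _ => ?_)
  rw [abs_mul, abs_of_nonneg (show 0 ≤ 1 - cs k x by
    have := (abs_le.1 (FH_abs_cs k x)).2
    linarith)]

theorem FH_chi (q : ℝ) : fh (tt d L q) 0 = chi d L q := by
  unfold fh chi
  refine Finset.sum_congr rfl fun x _ => ?_
  rw [FH_cs_zero_left, mul_one]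

theorem FH_one_le_chi (h0 : 0 ≤ q) (h1 : q ≤ 1) : 1 ≤ chi d L q := by
  have h2 : tt d L q 0 = 1 := Pr_true _ _ fun _ _ => Conn.rfl'
  rw [← h2]
  exact Finset.single_le_sum (f := fun x => tt d L q x) (fun x _ => Pr_nonneg h0 h1 _ _)
    (Finset.mem_univ 0)

/-- the difference of `Dh` -/
theorem FH_Dh_diff (hd : 1 ≤ d) (k : Tor d L) (j : Fin d) :
    |Dh k - Dh (k + Pi.single j 1)| ≤ 2 * Real.pi / (L * d) := by
  have hL0 : (0 : ℝ) < L := Nat.cast_pos.2 (Nat.pos_of_ne_zero (NeZero.ne L))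
  have hd' : (1 : ℝ) ≤ d := by exact_mod_cast hd
  have hd0 : (0 : ℝ) < d := by linarith
  have h1 : Dh k - Dh (k + Pi.single j 1) =
      ((ZMod.stdAddChar (k j) : ℂ).re - (ZMod.stdAddChar (k j + 1) : ℂ).re) / d := by
    unfold Dh
    rw [← sub_div, ← Finset.sum_sub_distrib]
    congr 1
    rw [Finset.sum_eq_single j]
    · simp
    · intro i _ hi
      simp [Pi.single_eq_of_ne hi]
    · intro h; exact absurd (Finset.mem_univ j) h
  rw [h1, abs_div, abs_of_pos hd0, div_le_iff₀ hd0]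
  have h2 : 2 * Real.pi / (L * d) * d = 2 * Real.pi / L := by field_simp
  rw [h2]
  have h3 : (ZMod.stdAddChar (k j) : ℂ).re - (ZMod.stdAddChar (k j + 1) : ℂ).re =
      ((ZMod.stdAddChar (k j) : ℂ) * (1 - ZMod.stdAddChar (1 : ZMod L))).re := by
    rw [AddChar.map_add_eq_mul, mul_sub, mul_one, Complex.sub_re]
  rw [h3]
  refine (Complex.abs_re_le_norm _).trans ?_
  rw [norm_mul, AddChar.norm_apply, one_mul]
  have h4 : (ZMod.stdAddChar (1 : ZMod L) : ℂ) =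
      Complex.exp (Complex.I * ((2 * Real.pi / L : ℝ) : ℂ)) := by
    have := ZMod.stdAddChar_coe (N := L) 1
    rw [Int.cast_one] at this
    rw [this]
    congr 1
    push_cast
    ring
  rw [h4, ← norm_neg, neg_sub]
  refine (Real.norm_exp_I_mul_ofReal_sub_one_le).trans ?_
  rw [Real.norm_eq_abs, abs_of_pos (by positivity)]

/-- the algebra: positivity -/
theorem FH_pos {T N x : ℝ} (hT : 0 ≤ T) (hN : |N - 1| ≤ 1 / 100) (h : T * x = N) : 0 < x := by
  by_contra hn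
  push Not at hn
  have h1 : T * x ≤ 0 := mul_nonpos_of_nonneg_of_nonpos hT hn
  rw [abs_le] at hN
  linarith

/-- the algebra: the denominators -/
theorem FH_alg1 {N0 Nk D lam F0 Fk : ℝ} (hlam : 0 ≤ lam)
    (hN0 : |N0 - 1| ≤ 1 / 100) (hD : |D| ≤ 1) (hd0 : |N0 - Nk| ≤ (1 - D) * (1 / 100))
    (e0 : F0 = 1 - lam * N0) (ek : Fk = 1 - lam * D * Nk) (p0 : 0 < F0) :
    lam ≤ 1.0102 ∧ F0 ≤ Fk ∧ Fk - F0 ≤ 1.031 * (1 - D) ∧ (1 - D) / 2 ≤ Fk := by
  have hDN : |D * (N0 - Nk)| ≤ (1 - D) * (1 / 100) := by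
    rw [abs_mul]
    calc |D| * |N0 - Nk| ≤ 1 * ((1 - D) * (1 / 100)) :=
          mul_le_mul hD hd0 (abs_nonneg _) zero_le_one
      _ = _ := one_mul _
  rw [abs_le] at hN0 hD hDN
  have ht : 0 ≤ 1 - D := by linarith
  have m0 : lam * 0.99 ≤ lam * N0 := mul_le_mul_of_nonneg_left (by linarith) hlam
  have hlam1 : lam ≤ 1.0102 := by linarith
  have e1 : Fk - F0 = lam * (N0 * (1 - D) + D * (N0 - Nk)) := by
    rw [ek, e0]; ring
  have m1 : 0.99 * (1 - D) ≤ N0 * (1 - D) := mul_le_mul_of_nonneg_right (by linarith) ht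
  have m2 : N0 * (1 - D) ≤ 1.01 * (1 - D) := mul_le_mul_of_nonneg_right (by linarith) ht
  have lo : 0.98 * (1 - D) ≤ N0 * (1 - D) + D * (N0 - Nk) := by linarith [hDN.1]
  have hi : N0 * (1 - D) + D * (N0 - Nk) ≤ 1.02 * (1 - D) := by linarith [hDN.2]
  have lo' : 0.98 * (lam * (1 - D)) ≤ Fk - F0 := by
    rw [e1]
    have h1 := mul_le_mul_of_nonneg_left lo hlam
    linarith
  have hlt : 0 ≤ lam * (1 - D) := mul_nonneg hlam ht
  have hi' : Fk - F0 ≤ 1.031 * (1 - D) := by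
    rw [e1]
    have h1 := mul_le_mul_of_nonneg_left hi hlam
    have h2 := mul_le_mul_of_nonneg_right hlam1 ht
    linarith
  have hk2 : (1 - D) / 2 ≤ Fk := by
    by_cases hc : lam ≤ 0.6
    · have h1 : 1 - 1.01 * lam ≤ F0 := by
        have := mul_le_mul_of_nonneg_left (show N0 ≤ 1.01 by linarith) hlam
        rw [e0]; linarith
      have h2 : 0 ≤ lam * (1 + D) := mul_nonneg hlam (by linarith)
      have h3 : 0 ≤ (0.6 - lam) * (1 - D) := mul_nonneg (by linarith) ht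
      have h4 : 0 ≤ (0.6 - lam) * (1 + D) := mul_nonneg (by linarith) (by linarith)
      linarith
    · push Not at hc
      have := mul_le_mul_of_nonneg_right hc.le ht
      linarith
  exact ⟨hlam1, by linarith, hi', hk2⟩

/-- the algebra: gradient -/
theorem FH_alg2 {Tk Tj Nk Nj D Dj lam ε Fk Fj : ℝ} (hTk : 0 ≤ Tk) (hTj : 0 ≤ Tj)
    (hlam : 0 ≤ lam) (hlam1 : lam ≤ 1.0102) (hε : 0 ≤ ε)
    (hNk : |Nk - 1| ≤ 1 / 100)
    (hDj : |Dj| ≤ 1) (hdj : |Nk - Nj| ≤ ε * (1 / 100)) (hDD : |D - Dj| ≤ ε)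
    (ek : Fk = 1 - lam * D * Nk) (ej : Fj = 1 - lam * Dj * Nj)
    (hFk : Tk * Fk = Nk) (hFj : Tj * Fj = Nj) (pk : 0 < Fk) :
    |Tk - Tj| ≤ 2 * ε * (Tk * (1 + Tj)) := by
  rw [abs_le] at hNk
  have hFF : |Fk - Fj| ≤ 1.04 * ε := by
    have e2 : Fk - Fj = -(lam * ((D - Dj) * Nk + Dj * (Nk - Nj))) := by
      rw [ek, ej]; ring
    rw [e2, abs_neg, abs_mul, abs_of_nonneg hlam]
    have h1 : |(D - Dj) * Nk + Dj * (Nk - Nj)| ≤ ε * 1.01 + 1 * (ε * (1 / 100)) := by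
      refine (abs_add_le _ _).trans (add_le_add ?_ ?_)
      · rw [abs_mul]
        exact mul_le_mul hDD (abs_le.2 ⟨by linarith, by linarith⟩) (abs_nonneg _) hε
      · rw [abs_mul]
        exact mul_le_mul hDj hdj (abs_nonneg _) zero_le_one
    calc lam * |(D - Dj) * Nk + Dj * (Nk - Nj)| ≤ 1.0102 * (ε * 1.01 + 1 * (ε * (1 / 100))) :=
          mul_le_mul hlam1 h1 (abs_nonneg _) (by norm_num)
      _ ≤ 1.04 * ε := by linarith
  have e3 : (Tk - Tj) * Fk = (Nk - Nj) - Tj * (Fk - Fj) := by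
    rw [← hFk, ← hFj]; ring
  have h4 : |Tk - Tj| * Fk ≤ ε * (1 / 100) + Tj * (1.04 * ε) := by
    have : |Tk - Tj| * Fk = |(Nk - Nj) - Tj * (Fk - Fj)| := by
      rw [← e3, abs_mul, abs_of_pos pk]
    rw [this]
    refine (abs_sub _ _).trans (add_le_add hdj ?_)
    rw [abs_mul, abs_of_nonneg hTj]
    exact mul_le_mul_of_nonneg_left hFF hTj
  have h5 : |Tk - Tj| * Nk ≤ Tk * (ε * (1 / 100) + Tj * (1.04 * ε)) := by
    have := mul_le_mul_of_nonneg_left h4 hTk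
    calc |Tk - Tj| * Nk = Tk * (|Tk - Tj| * Fk) := by rw [← hFk]; ring
      _ ≤ _ := this
  have h6 : |Tk - Tj| * 0.99 ≤ |Tk - Tj| * Nk :=
    mul_le_mul_of_nonneg_left (by linarith) (abs_nonneg _)
  have h7 : 0 ≤ Tk * ε := mul_nonneg hTk hε
  have h8 : 0 ≤ Tk * ε * Tj := mul_nonneg h7 hTj
  linarith

/-- the algebra: last inequality -/
theorem FH_alg3 {T0 Tk N0 Nk D F0 Fk : ℝ} (ht : 0 ≤ 1 - D)
    (hN0 : |N0 - 1| ≤ 1 / 100) (hd0 : |N0 - Nk| ≤ (1 - D) * (1 / 100))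
    (hF0 : T0 * F0 = N0) (hFk : Tk * Fk = Nk) (p0 : 0 < F0) (pk : 0 < Fk) (hF01 : F0 ≤ 1)
    (hF0k : F0 ≤ Fk) (hi : Fk - F0 ≤ 1.031 * (1 - D)) :
    T0 - Tk ≤ 2 * T0 ^ 2 * (1 - D) := by
  rw [abs_le] at hN0 hd0
  have e4 : (T0 - Tk) * (F0 * Fk) = N0 * (Fk - F0) + F0 * (N0 - Nk) := by
    rw [← hFk, ← hF0]; ring
  have h1 : N0 * (Fk - F0) ≤ 1.01 * (1.031 * (1 - D)) :=
    mul_le_mul (by linarith) hi (by linarith) (by norm_num)
  have h2 : F0 * (N0 - Nk) ≤ 1 * ((1 - D) * (1 / 100)) :=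
    (mul_le_mul_of_nonneg_left hd0.2 p0.le).trans
      (mul_le_mul_of_nonneg_right hF01 (by linarith))
  have h5 : (T0 - Tk) * (F0 * Fk) ≤ 1.06 * (1 - D) := by
    rw [e4]; linarith
  have h6 : 2 * N0 ^ 2 * (1 - D) ≤ 2 * T0 ^ 2 * (1 - D) * (F0 * Fk) := by
    have : 2 * N0 ^ 2 * (1 - D) = 2 * T0 ^ 2 * (1 - D) * (F0 * F0) := by
      rw [← hF0]; ring
    rw [this]
    refine mul_le_mul_of_nonneg_left ?_ (by positivity)
    exact mul_le_mul_of_nonneg_left hF0k p0.le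
  have h8 : 1.06 * (1 - D) ≤ 2 * N0 ^ 2 * (1 - D) := by
    refine mul_le_mul_of_nonneg_right ?_ ht
    nlinarith
  exact le_of_mul_le_mul_right ((h5.trans h8).trans h6) (mul_pos p0 pk)

/-- the algebra -/
theorem FH_alg {T0 Tk Tj N0 Nk Nj D Dj lam ε : ℝ} (hT0 : 1 ≤ T0) (hTk : 0 ≤ Tk) (hTj : 0 ≤ Tj)
    (hlam : 0 ≤ lam) (hε : 0 ≤ ε)
    (e0 : T0 = N0 + N0 * lam * T0) (ek : Tk = Nk + Nk * (lam * D) * Tk)
    (ej : Tj = Nj + Nj * (lam * Dj) * Tj)
    (hN0 : |N0 - 1| ≤ 1 / 100) (hNk : |Nk - 1| ≤ 1 / 100) (hNj : |Nj - 1| ≤ 1 / 100)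
    (hD : |D| ≤ 1) (hDj : |Dj| ≤ 1) (hd0 : |N0 - Nk| ≤ (1 - D) * (1 / 100))
    (hdj : |Nk - Nj| ≤ ε * (1 / 100)) (hDD : |D - Dj| ≤ ε) :
    lam ≤ 2 ∧ Tk * (1 - D) ≤ 5 ∧ |Tk - Tj| ≤ 2 * ε * (Tk * (1 + Tj)) ∧
      T0 - Tk ≤ 2 * T0 ^ 2 * (1 - D) := by
  have hF0 : T0 * (1 - lam * N0) = N0 := by linarith
  have hFk : Tk * (1 - lam * D * Nk) = Nk := by linarith
  have hFj : Tj * (1 - lam * Dj * Nj) = Nj := by linarith
  have p0 := FH_pos (by linarith) hN0 hF0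
  have pk := FH_pos hTk hNk hFk
  have pj := FH_pos hTj hNj hFj
  obtain ⟨a1, a2, a3, a4⟩ := FH_alg1 hlam hN0 hD hd0 rfl rfl p0
  have ht : 0 ≤ 1 - D := by linarith [(abs_le.1 hD).2]
  refine ⟨by linarith, ?_, ?_, ?_⟩
  · have h1 : Tk * (1 - D) ≤ Tk * (2 * (1 - lam * D * Nk)) :=
      mul_le_mul_of_nonneg_left (by linarith) hTk
    have h2 : Tk * (2 * (1 - lam * D * Nk)) = 2 * Nk := by
      conv_rhs => rw [← hFk]
      ring
    have := (abs_le.1 hNk).2
    linarith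
  · exact FH_alg2 hTk hTj hlam a1 hε hNk hDj hdj hDD rfl rfl hFk hFj pk
  · refine FH_alg3 ht hN0 hd0 hF0 hFk p0 pk ?_ a2 a3
    have h1 : 0 ≤ lam * N0 := mul_nonneg hlam (by linarith [(abs_le.1 hN0).1])
    linarith

/-- FH (from FF, FA, FQ): consequences of the lace expansion, `N` symmetric -/
theorem improve_algebra_of_sym (hL : 3 ≤ L) (hd : 1 ≤ d) (h0 : 0 ≤ q) (h1 : q ≤ 1) (N : Tor d L → ℝ)
    (hN : ∀ x, tt d L q x = N x + conv (conv N (qJ d L q)) (tt d L q) x)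
    (h2 : ∑ x, |N x - (if x = 0 then 1 else 0)| ≤ 1 / 100) (h3 : mom N ≤ 1 / 100)
    (hs : SymF N) :
    2 * d * q ≤ 2 ∧ (∀ k : Tor d L, fh (tt d L q) k * (1 - Dh k) ≤ 5) ∧
    (∀ (k : Tor d L) (j : Fin d),
      |fh (tt d L q) k - fh (tt d L q) (k + Pi.single j 1)| ≤
        4 * Real.pi / (L * d) * (fh (tt d L q) k * (1 + fh (tt d L q) (k + Pi.single j 1)))) ∧
    ∀ k : Tor d L, chi d L q - fh (tt d L q) k ≤ 2 * chi d L q ^ 2 * (1 - Dh k) := by
  have hL0 : (0 : ℝ) < L := Nat.cast_pos.2 (Nat.pos_of_ne_zero (NeZero.ne L))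
  have hd' : (1 : ℝ) ≤ d := by exact_mod_cast hd
  have hd0 : (0 : ℝ) < d := by linarith
  have hNe := FH_even N hs
  have hlam : 0 ≤ 2 * (d : ℝ) * q := by positivity
  have heq : ∀ k : Tor d L, fh (tt d L q) k =
      fh N k + fh N k * (2 * d * q * Dh k) * fh (tt d L q) k := by
    intro k
    have e1 : fh (tt d L q) k = fh N k + fh (conv (conv N (qJ d L q)) (tt d L q)) k := by
      unfold fh
      rw [← Finset.sum_add_distrib]
      refine Finset.sum_congr rfl fun x _ => ?_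
      rw [← add_mul, ← hN x]
    rw [FH_conv _ _ (Or.inr fun x => tt_neg x), FH_conv _ _ (Or.inl hNe), fh_qJ hL hd] at e1
    exact e1
  have hmom : 0 ≤ mom N := by
    unfold mom
    exact Finset.sum_nonneg fun x _ => Finset.sum_nonneg fun j _ => by positivity
  have key : ∀ (k : Tor d L) (j : Fin d), 2 * d * q ≤ 2 ∧
      fh (tt d L q) k * (1 - Dh k) ≤ 5 ∧
      |fh (tt d L q) k - fh (tt d L q) (k + Pi.single j 1)| ≤
        2 * (2 * Real.pi / (L * d)) *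
          (fh (tt d L q) k * (1 + fh (tt d L q) (k + Pi.single j 1))) ∧
      chi d L q - fh (tt d L q) k ≤ 2 * chi d L q ^ 2 * (1 - Dh k) := by
    intro k j
    have hk := Dh_facts hd k
    have hkj := Dh_facts hd (k + Pi.single j 1)
    have e0 := heq 0
    rw [hk.1, mul_one, FH_chi] at e0
    refine FH_alg (FH_one_le_chi h0 h1) (fh_tt_nonneg h0 h1 k) (fh_tt_nonneg h0 h1 _) hlam
      (by positivity) e0 (heq k) (heq _) (FH_fh_near N h2 0) (FH_fh_near N h2 k)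
      (FH_fh_near N h2 _) hk.2.1 hkj.2.1 ?_ ?_ (FH_Dh_diff hd k j)
    · refine (FH_fh_diff N hs hd k).trans (mul_le_mul_of_nonneg_left h3 ?_)
      have := (abs_le.1 hk.2.1).2
      linarith
    · exact (sym_grad N hs hd k j).trans (mul_le_mul_of_nonneg_left h3 (by positivity))
  have j0 : Fin d := ⟨0, hd⟩
  refine ⟨(key 0 j0).1, fun k => (key k j0).2.1, fun k j => ?_, fun k => (key k j0).2.2.2⟩
  have := (key k j).2.2.1
  have e5 : 2 * (2 * Real.pi / (L * d)) = 4 * Real.pi / (L * (d : ℝ)) := by ring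
  rwa [e5] at this

/-- FH (from FG, FF, FA, FQ): consequences of the lace expansion -/
theorem improve_algebra (hL : 3 ≤ L) (hd : 1 ≤ d) (h0 : 0 ≤ q) (h1 : q ≤ 1) (N : Tor d L → ℝ)
    (hN : ∀ x, tt d L q x = N x + conv (conv N (qJ d L q)) (tt d L q) x)
    (h2 : ∑ x, |N x - (if x = 0 then 1 else 0)| ≤ 1 / 100) (h3 : mom N ≤ 1 / 100) :
    2 * d * q ≤ 2 ∧ (∀ k : Tor d L, fh (tt d L q) k * (1 - Dh k) ≤ 5) ∧
    (∀ (k : Tor d L) (j : Fin d),
      |fh (tt d L q) k - fh (tt d L q) (k + Pi.single j 1)| ≤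
        4 * Real.pi / (L * d) * (fh (tt d L q) k * (1 + fh (tt d L q) (k + Pi.single j 1)))) ∧
    ∀ k : Tor d L, chi d L q - fh (tt d L q) k ≤ 2 * chi d L q ^ 2 * (1 - Dh k) :=
  improve_algebra_of_sym hL hd h0 h1 N hN h2 h3 (N_sym N hN)

end F

end Pool.Agent.helper66.LE
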