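import Pool.Agent.helper70.LE.SpecN
import Pool.Agent.helper59.FI.Base

/-! Row EUX of project LE (MP_baa4d7_al). -/

set_option autoImplicit false

namespace Pool.Agent.LE

open Pool.Agent.helper58.DC Pool.Agent.DI Pool.Agent.GR Pool.Agent.OB Pool.Agent.DR Pool.Agent.FI Pool.Agent.FI3 Pool.Agent.FI4

/-- transport of the block idempotent -/
theorem EUX_term (hFEQ : FEQ_stmt) {G : Type} [Group G] [Finite G] (M : Ideal (integralClosure ℤ ℂ)) (K' : Subgroup G)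
    (θ : G → ℂ) (l t : G) : eBl M K' θ (l⁻¹ * t * l) = eBl M (cjS l K') (cjF l θ) t := by
  have hcard : Nat.card (cjS l K') = Nat.card K' := (hFEQ G M l 1 K' K' K' θ θ θ).2.1.2.2.2.2.2
  have hbij : Set.BijOn (fun ψ : G → ℂ => cjF l ψ) (Bl M K' θ) (Bl M (cjS l K') (cjF l θ)) := by
    refine ⟨fun ψ hψ => ?_, fun ψ _ ψ' _ h => ?_, fun η hη => ?_⟩
    · exact ((hFEQ G M l 1 K' K' K' θ ψ θ).2.2.2.2.2.2.1).1 hψ
    · have h1 := (hFEQ G M l⁻¹ l K' K' K' θ ψ θ).1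
      have h2 := (hFEQ G M l⁻¹ l K' K' K' θ ψ' θ).1
      have h3 : cjF l⁻¹ (cjF l ψ) = cjF l⁻¹ (cjF l ψ') := by
        have h4 : cjF l ψ = cjF l ψ' := h
        rw [h4]
      rw [h1.2.1, h2.2.1, inv_mul_cancel, h1.2.2.2, h2.2.2.2] at h3
      exact h3
    · refine ⟨cjF l⁻¹ η, ?_, ?_⟩
      · rw [(hFEQ G M l 1 K' K' K' θ (cjF l⁻¹ η) θ).2.2.2.2.2.2.1]
        have h1 := (hFEQ G M l l⁻¹ K' K' K' θ η θ).1
        rw [h1.2.1, mul_inv_cancel, h1.2.2.2]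
        exact hη
      · show cjF l (cjF l⁻¹ η) = η
        have h1 := (hFEQ G M l l⁻¹ K' K' K' θ η θ).1
        rw [h1.2.1, mul_inv_cancel, h1.2.2.2]
  have hsum : ∑ᶠ ψ ∈ Bl M K' θ, ψ 1 * ψ (l⁻¹ * t * l)⁻¹ = ∑ᶠ η ∈ Bl M (cjS l K') (cjF l θ), η 1 * η t⁻¹ := by
    refine finsum_mem_eq_of_bijOn _ hbij fun ψ _ => ?_
    show ψ 1 * ψ (l⁻¹ * t * l)⁻¹ = cjF l ψ 1 * cjF l ψ t⁻¹
    rw [cjF_apply, cjF_apply]
    have e1 : l⁻¹ * 1 * l = 1 := by group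
    have e2 : (l⁻¹ * t * l)⁻¹ = l⁻¹ * t⁻¹ * l := by group
    rw [e1, e2]
  show (∑ᶠ ψ ∈ Bl M K' θ, ψ 1 * ψ (l⁻¹ * t * l)⁻¹) / (Nat.card K' : ℂ) =
    (∑ᶠ η ∈ Bl M (cjS l K') (cjF l θ), η 1 * η t⁻¹) / (Nat.card (cjS l K') : ℂ)
  rw [hsum, hcard]

/-- the number of the pairs -/
theorem EUX_count (hQWTr : QWTr_stmt) (hFRA4 : FRA4_stmt) (hFEQ : FEQ_stmt)
    (p : ℕ) (M : Ideal (integralClosure ℤ ℂ)) (hS : Setup p M) (G : Type) [Group G] [Finite G]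
    (D : Subgroup G) (x : G) (θ χ : G → ℂ) (hL : LoA p M D x θ χ) (Q : Subgroup G) (hQ : Q ≤ D) (hRP : RP M D θ Q)
    (u : G) (hu : u ∈ cz Q) (hPu : PEl p u) (η : G → ℂ) (hη : η ∈ IrrOn (Cz (cz Q) u)) :
    (SB M (cz Q) η θ → Nat.card {q : G × G // q.1 ∈ cz Q ∧ q.2 ∈ D ∧ q.1 * q.2 * q.1⁻¹ = u ∧
      SB M (Cz (cz Q) u) (cjF q.1 θ) η} = Nat.card (Cz (cz Q) u)) ∧
    ∀ q : G × G, q.1 ∈ cz Q → q.2 ∈ D → q.1 * q.2 * q.1⁻¹ = u → SB M (Cz (cz Q) u) (cjF q.1 θ) η → SB M (cz Q) η θ := by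
  have hfra := hFRA4 p M hS G D x θ χ hL Q hQ
  have hKL : Cz (cz Q) u ≤ cz Q := inf_le_left
  constructor
  · intro hSB
    by_cases hu1 : u = 1
    · subst hu1
      have hK : Cz (cz Q) (1 : G) = cz Q := by
        ext y
        rw [mem_Cz]
        simp
      have key : ∀ q : G × G, (q.1 ∈ cz Q ∧ q.2 ∈ D ∧ q.1 * q.2 * q.1⁻¹ = 1 ∧ SB M (Cz (cz Q) 1) (cjF q.1 θ) η) ↔
          (q.1 ∈ cz Q ∧ q.2 = 1) := by
        intro q
        constructor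
        · rintro ⟨h1, -, h3, -⟩
          refine ⟨h1, ?_⟩
          have h4 : q.1 * q.2 = q.1 := by
            rw [mul_inv_eq_one] at h3
            exact h3
          exact mul_eq_left.1 h4
        · rintro ⟨h1, h2⟩
          refine ⟨h1, ?_, ?_, ?_⟩
          · rw [h2]
            exact D.one_mem
          · rw [h2, mul_one, mul_inv_cancel]
          · rw [hK]
            exact (SB_inner h1 θ).trans hSB.symm
      rw [hK]
      refine Nat.card_congr ⟨fun q => ⟨q.1.1, ((key q.1).1 (by rw [hK]; exact q.2)).1⟩, fun l => ⟨(l.1, 1), ?_⟩, fun q => ?_, fun l => ?_⟩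
      · have h5 := (key (l.1, 1)).2 ⟨l.2, rfl⟩
        rw [hK] at h5
        exact h5
      · have h6 := ((key q.1).1 (by rw [hK]; exact q.2)).2
        apply Subtype.ext
        exact Prod.ext rfl h6.symm
      · rfl
    · have h1 := hQWTr p M hS G D x θ χ hL Q hQ hRP u hu hPu hu1 η hη hSB
      rw [h1]
      have h2 : iL M D (cz Q) θ = 1 := by
        unfold iL
        rw [hfra.1.2.2.2.2 hRP]
        exact Subgroup.relIndex_self _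
      rw [h2, one_mul]
  · intro q hq1 hq2 hq3 hq4
    have hθ : ∀ y, y ∉ cz D → θ y = 0 := fun y hy => IrrOn_zero hL.rt.th hy
    have hθ2 : ∀ y, y ∉ Cz (cz Q) u → cjF q.1 θ y = 0 := by
      intro y hy
      rw [cjF_apply]
      refine hθ _ fun h1 => hy ?_
      rw [mem_Cz]
      have h2 : q.1⁻¹ * y * q.1 ∈ cz Q := hfra.1.2.1 h1
      have h3 : q.2 * (q.1⁻¹ * y * q.1) = (q.1⁻¹ * y * q.1) * q.2 := Subgroup.mem_centralizer_iff.1 h1 _ hq2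
      constructor
      · have h4 := (cz Q).mul_mem ((cz Q).mul_mem hq1 h2) ((cz Q).inv_mem hq1)
        have h5 : q.1 * (q.1⁻¹ * y * q.1) * q.1⁻¹ = y := by group
        rwa [h5] at h4
      · rw [← hq3]
        calc q.1 * q.2 * q.1⁻¹ * y = q.1 * (q.2 * (q.1⁻¹ * y * q.1)) * q.1⁻¹ := by group
          _ = q.1 * ((q.1⁻¹ * y * q.1) * q.2) * q.1⁻¹ := by rw [h3]
          _ = y * (q.1 * q.2 * q.1⁻¹) := by group
    have h6 : SB M (cz Q) (cjF q.1 θ) η := TRNb hKL hθ2 (fun y hy => IrrOn_zero hη hy) hq4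
    exact h6.symm.trans (SB_inner hq1 θ)

theorem EUX (hQWTr : QWTr_stmt) (hFRA4 : FRA4_stmt) (hFSI : FSI_stmt) (hFEQ : FEQ_stmt) (hIDM : IDM_stmt) : EUX_stmt := by
  classical
  intro p M hS G _ _ D x θ χ hL Q hQ hRP u hu hPu t
  have hcnt := EUX_count hQWTr hFRA4 hFEQ p M hS G D x θ χ hL Q hQ hRP u hu hPu
  obtain ⟨K, hK⟩ : ∃ K : Subgroup G, K = Cz (cz Q) u := ⟨_, rfl⟩
  obtain ⟨I, hI⟩ : ∃ I : Set (G × G), I = {q : G × G | q.1 ∈ cz Q ∧ q.2 ∈ D ∧ q.1 * q.2 * q.1⁻¹ = u} := ⟨_, rfl⟩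
  have hIf : I.Finite := Set.toFinite _
  have hKf : (IrrOn K).Finite := IrrOn_fin K
  obtain ⟨a, ha⟩ : ∃ a : (G → ℂ) → ℂ, a = fun η => η 1 * η t⁻¹ := ⟨_, rfl⟩
  have hmem : ∀ q : G × G, q ∈ I ↔ q.1 ∈ cz Q ∧ q.2 ∈ D ∧ q.1 * q.2 * q.1⁻¹ = u := by
    intro q
    rw [hI]
    exact Iff.rfl
  have hcjK : ∀ q ∈ I, cjS q.1 (Cz (cz Q) q.2) = K := by
    intro q hq
    have hq' := (hmem q).1 hq
    have h1 := (hFEQ G M q.1 1 (cz Q) Q (cz Q) θ θ θ)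
    rw [h1.2.2.1, h1.2.1.2.2.2.1.2 (Subgroup.le_normalizer hq'.1), hq'.2.2, hK]
  have hterm : ∀ q ∈ I, eBl M (Cz (cz Q) q.2) θ (q.1⁻¹ * t * q.1) =
      (∑ η ∈ hKf.toFinset, if η ∈ Bl M K (cjF q.1 θ) then a η else 0) / (Nat.card K : ℂ) := by
    intro q hq
    rw [EUX_term hFEQ, hcjK q hq]
    show (∑ᶠ η ∈ Bl M K (cjF q.1 θ), η 1 * η t⁻¹) / (Nat.card K : ℂ) = _
    congr 1
    have hsub : Bl M K (cjF q.1 θ) ⊆ IrrOn K := fun η hη => hη.1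
    rw [← Finset.sum_filter, finsum_mem_eq_finite_toFinset_sum _ (hKf.subset hsub), ha]
    refine Finset.sum_congr ?_ fun _ _ => rfl
    ext η
    simp only [Set.Finite.mem_toFinset, Finset.mem_filter]
    exact ⟨fun h => ⟨hsub h, h⟩, fun h => h.2⟩
  have hN : ∀ η ∈ hKf.toFinset, (((hIf.toFinset.filter fun q => η ∈ Bl M K (cjF q.1 θ)).card : ℕ) : ℂ) =
      if η ∈ BlC M (cz Q) θ u then (Nat.card K : ℂ) else 0 := by
    intro η hη
    have hη1 : η ∈ IrrOn (Cz (cz Q) u) := by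
      rw [← hK]
      exact (Set.Finite.mem_toFinset _).1 hη
    obtain ⟨hc1, hc2⟩ := hcnt η hη1
    have hf : ∀ q : G × G, q ∈ (hIf.toFinset.filter fun q => η ∈ Bl M K (cjF q.1 θ)) ↔
        (q.1 ∈ cz Q ∧ q.2 ∈ D ∧ q.1 * q.2 * q.1⁻¹ = u ∧ SB M (Cz (cz Q) u) (cjF q.1 θ) η) := by
      intro q
      rw [Finset.mem_filter, Set.Finite.mem_toFinset, hmem q, hK]
      constructor
      · rintro ⟨⟨h1, h2, h3⟩, h4⟩
        exact ⟨h1, h2, h3, h4.2.symm⟩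
      · rintro ⟨h1, h2, h3, h4⟩
        exact ⟨⟨h1, h2, h3⟩, hη1, h4.symm⟩
    by_cases h : η ∈ BlC M (cz Q) θ u
    · rw [if_pos h, ← Nat.subtype_card _ hf, hc1 h.2, hK]
    · rw [if_neg h]
      have h0 : (hIf.toFinset.filter fun q => η ∈ Bl M K (cjF q.1 θ)) = ∅ := by
        rw [Finset.eq_empty_iff_forall_notMem]
        intro q hq
        obtain ⟨h1, h2, h3, h4⟩ := (hf q).1 hq
        exact h ⟨hη1, hc2 q h1 h2 h3 h4⟩
      rw [h0, Finset.card_empty, Nat.cast_zero]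
  have hK0 : (Nat.card K : ℂ) ≠ 0 := by
    exact_mod_cast Nat.card_pos.ne'
  have hR : ∑ᶠ q ∈ I, eBl M (Cz (cz Q) q.2) θ (q.1⁻¹ * t * q.1) =
      ∑ η ∈ hKf.toFinset, if η ∈ BlC M (cz Q) θ u then a η else 0 := by
    rw [finsum_mem_congr rfl hterm, finsum_mem_eq_finite_toFinset_sum _ hIf, ← Finset.sum_div, Finset.sum_comm,
      div_eq_iff hK0, Finset.sum_mul]
    refine Finset.sum_congr rfl fun η hη => ?_
    rw [← Finset.sum_filter, Finset.sum_const, nsmul_eq_mul, hN η hη]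
    by_cases h : η ∈ BlC M (cz Q) θ u
    · rw [if_pos h, if_pos h]
      ring
    · rw [if_neg h, if_neg h]
      ring
  have hLft : (Nat.card K : ℂ) * eS K (BlC M (cz Q) θ u) t = ∑ η ∈ hKf.toFinset, if η ∈ BlC M (cz Q) θ u then a η else 0 := by
    show (Nat.card K : ℂ) * ((∑ᶠ η ∈ BlC M (cz Q) θ u, η 1 * η t⁻¹) / (Nat.card K : ℂ)) = _
    rw [mul_div_cancel₀ _ hK0]
    have hsub : BlC M (cz Q) θ u ⊆ IrrOn K := by
      intro η hη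
      rw [hK]
      exact hη.1
    rw [← Finset.sum_filter, finsum_mem_eq_finite_toFinset_sum _ (hKf.subset hsub), ha]
    refine Finset.sum_congr ?_ fun _ _ => rfl
    ext η
    simp only [Set.Finite.mem_toFinset, Finset.mem_filter]
    exact ⟨fun h => ⟨hsub h, h⟩, fun h => h.2⟩
  rw [← hI, hR, ← hK, hLft]

end Pool.Agent.LE
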